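import Pool.Agent.Helper82.BR.St3

/-!
# Project BR8, module R3
-/

set_option autoImplicit false

namespace Pool.Agent.Helper75.BR

open Pool.Agent.Helper82.BR
open scoped ComplexConjugate

private lemma unit_cc {p : ℂ} (hp : ‖p‖ = 1) : p * conj p = 1 := by
  rw [Complex.mul_conj, Complex.normSq_eq_norm_sq, hp]
  norm_num

private lemma bisg {s p : ℂ} (h : dist s 0 = dist s p) :
    s * conj p + conj s * p = p * conj p := by
  have h1 : ‖s‖ = ‖s - p‖ := by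
    rw [dist_eq_norm, dist_eq_norm, sub_zero] at h
    exact h
  have h2 : s * conj s = (s - p) * conj (s - p) := by
    rw [Complex.mul_conj, Complex.mul_conj, Complex.normSq_eq_norm_sq, Complex.normSq_eq_norm_sq, h1]
  rw [map_sub] at h2
  linear_combination h2

private lemma bis {s p : ℂ} (hp : ‖p‖ = 1) (h : dist s 0 = dist s p) :
    s * conj p + conj s * p = 1 := by
  rw [bisg h, unit_cc hp]

private lemma sq_unit {s p : ℂ} (hs : ‖s‖ = 1) (hp : ‖p‖ = 1) (E : s * conj p + conj s * p = 1) :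
    s ^ 2 + p ^ 2 = s * p := by
  linear_combination (s * p) * E - s ^ 2 * unit_cc hp - p ^ 2 * unit_cc hs

private lemma dir {b d p : ℂ} (hb : b = d * conj b) (hp : ‖p‖ = 1)
    (E : b * conj p + conj b * p = 1) : b * (d + p ^ 2) = d * p := by
  linear_combination (d * p) * E - d * b * unit_cc hp + p ^ 2 * hb

private lemma cls {S : Finset ℂ} {ρ b1 b2 b3 p s : ℂ} (hn : ‖ρ‖ = 1)
    (hb1 : b1 = ρ * conj b1) (hb2 : b2 = ρ ^ 3 * conj b2) (hb3 : b3 = ρ ^ 5 * conj b3)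
    (hS : ∀ z, z ∈ S ↔ z = 0 ∨ z = 1 ∨ z = ρ ∨ z = ρ ^ 2 ∨ z = ρ ^ 3 ∨ z = b1 ∨ z = b2 ∨ z = b3)
    (hp1 : ‖p‖ = 1) (hs : s ∈ S) (hd : dist s 0 = dist s p) :
    (∃ k : ℕ, k ≤ 3 ∧ s = ρ ^ k ∧ (ρ ^ k) ^ 2 + p ^ 2 = ρ ^ k * p) ∨
      (s = b1 ∧ b1 * (ρ + p ^ 2) = ρ * p) ∨ (s = b2 ∧ b2 * (ρ ^ 3 + p ^ 2) = ρ ^ 3 * p) ∨
      (s = b3 ∧ b3 * (ρ ^ 5 + p ^ 2) = ρ ^ 5 * p) := by
  have hu : ∀ k : ℕ, ‖ρ ^ k‖ = 1 := fun k => by rw [norm_pow, hn, one_pow]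
  have E := bis hp1 hd
  have hpow : ∀ k : ℕ, k ≤ 3 → s = ρ ^ k →
      (∃ k : ℕ, k ≤ 3 ∧ s = ρ ^ k ∧ (ρ ^ k) ^ 2 + p ^ 2 = ρ ^ k * p) := by
    intro k hk3 hs
    refine ⟨k, hk3, hs, ?_⟩
    rw [hs] at E
    exact sq_unit (hu k) hp1 E
  rcases (hS s).1 hs with h | h | h | h | h | h | h | h
  · rw [h] at E
    simp at E
  · exact Or.inl (hpow 0 (by norm_num) (by rw [h, pow_zero]))
  · exact Or.inl (hpow 1 (by norm_num) (by rw [h, pow_one]))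
  · exact Or.inl (hpow 2 (by norm_num) h)
  · exact Or.inl (hpow 3 (by norm_num) h)
  · rw [h] at E
    exact Or.inr (Or.inl ⟨h, dir hb1 hp1 E⟩)
  · rw [h] at E
    exact Or.inr (Or.inr (Or.inl ⟨h, dir hb2 hp1 E⟩))
  · rw [h] at E
    exact Or.inr (Or.inr (Or.inr ⟨h, dir hb3 hp1 E⟩))

private lemma pair {S : Finset ℂ} {p : ℂ} (hR : Rich S) (h0 : (0 : ℂ) ∈ S) (hp : p ∈ S)
    (hp0 : p ≠ 0) : ∃ s ∈ S, ∃ t ∈ S, s ≠ t ∧ dist s 0 = dist s p ∧ dist t 0 = dist t p := by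
  have hF := hR 0 h0 p hp (Ne.symm hp0)
  obtain ⟨s, hs, t, ht, hst⟩ := Finset.one_lt_card.1 (show 1 < _ from hF)
  rw [Finset.mem_filter] at hs ht
  exact ⟨s, hs.1, t, ht.1, hst, hs.2, ht.2⟩

private lemma two {S : Finset ℂ} {ρ b1 b2 b3 p : ℂ} (hn : ‖ρ‖ = 1) (hR : Rich S)
    (hb1 : b1 = ρ * conj b1) (hb2 : b2 = ρ ^ 3 * conj b2) (hb3 : b3 = ρ ^ 5 * conj b3)
    (hS : ∀ z, z ∈ S ↔ z = 0 ∨ z = 1 ∨ z = ρ ∨ z = ρ ^ 2 ∨ z = ρ ^ 3 ∨ z = b1 ∨ z = b2 ∨ z = b3)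
    (hp : p ∈ S) (hp1 : ‖p‖ = 1)
    (hk : ∀ k : ℕ, k ≤ 3 → (ρ ^ k) ^ 2 + p ^ 2 ≠ ρ ^ k * p) :
    (b1 * (ρ + p ^ 2) = ρ * p ∧ b2 * (ρ ^ 3 + p ^ 2) = ρ ^ 3 * p) ∨
    (b1 * (ρ + p ^ 2) = ρ * p ∧ b3 * (ρ ^ 5 + p ^ 2) = ρ ^ 5 * p) ∨
    (b2 * (ρ ^ 3 + p ^ 2) = ρ ^ 3 * p ∧ b3 * (ρ ^ 5 + p ^ 2) = ρ ^ 5 * p) := by
  have h0 : (0 : ℂ) ∈ S := (hS 0).2 (Or.inl rfl)
  have hp0 : p ≠ 0 := by
    intro h
    rw [h, norm_zero] at hp1
    exact zero_ne_one hp1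
  obtain ⟨s, hs, t, ht, hst, ds, dt⟩ := pair hR h0 hp hp0
  rcases cls hn hb1 hb2 hb3 hS hp1 hs ds with ⟨k, hk3, _, h⟩ | ⟨e, h⟩ | ⟨e, h⟩ | ⟨e, h⟩
  · exact absurd h (hk k hk3)
  all_goals
    rcases cls hn hb1 hb2 hb3 hS hp1 ht dt with ⟨k, hk3, _, h'⟩ | ⟨e', h'⟩ | ⟨e', h'⟩ | ⟨e', h'⟩
  all_goals first
    | exact absurd h' (hk _ (by assumption))
    | exact absurd (e.trans e'.symm) hst
    | exact Or.inl ⟨h, h'⟩
    | exact Or.inl ⟨h', h⟩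
    | exact Or.inr (Or.inl ⟨h, h'⟩)
    | exact Or.inr (Or.inl ⟨h', h⟩)
    | exact Or.inr (Or.inr ⟨h, h'⟩)
    | exact Or.inr (Or.inr ⟨h', h⟩)

theorem hR3 : StR3 := by
  intro S w ρ b1 b2 b3 hC hρw
  obtain ⟨hw, hn, hR, hz1, hz2, hz3, hb1, hb2, hb3, hS⟩ := hC
  have h6 : ρ ^ 6 = ρ ^ 3 - 1 := by
    rw [← hρw] at hw
    linear_combination hw
  have h9 : ρ ^ 9 = -1 := by linear_combination (ρ ^ 3 + 1) * h6
  have hρ : ρ ≠ 0 := by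
    intro h
    rw [h, norm_zero] at hn
    exact zero_ne_one hn
  have h0 : (0 : ℂ) ∈ S := (hS 0).2 (Or.inl rfl)
  have hu : ∀ k : ℕ, ‖ρ ^ k‖ = 1 := fun k => by rw [norm_pow, hn, one_pow]
  have n3 : ρ ^ 3 - 1 ≠ 0 := by
    intro h
    have h1 : ρ ^ 6 = 0 := by linear_combination h6 + h
    exact pow_ne_zero 6 hρ h1
  have n3' : ρ ^ 3 + 1 ≠ 0 := by
    intro h
    have h1 : (3 : ℂ) = 0 := by linear_combination h6 - (ρ ^ 3 - 2) * h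
    norm_num at h1
  have q1 : ρ - 1 ≠ 0 := by
    intro h
    exact n3 (by linear_combination (ρ ^ 2 + ρ + 1) * h)
  have q2 : ρ + 1 ≠ 0 := by
    intro h
    exact n3' (by linear_combination (ρ ^ 2 - ρ + 1) * h)
  have q4 : ρ ^ 4 - 1 ≠ 0 := by
    intro h
    have h1 : ρ = -1 := by linear_combination -ρ * (ρ ^ 4 + 1) * h + h9
    exact q2 (by linear_combination h1)
  have q4' : ρ ^ 4 + 1 ≠ 0 := by
    intro h
    have h1 : ρ = -1 := by linear_combination -ρ * (ρ ^ 4 - 1) * h + h9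
    exact q2 (by linear_combination h1)
  -- a quotient of powers that differ by 1 or 2 is not a primitive sixth root
  have m1 : ρ ^ 2 + 1 - ρ ≠ 0 := by
    intro h
    exact n3' (by linear_combination (ρ + 1) * h)
  have m2 : ρ ^ 4 + 1 - ρ ^ 2 ≠ 0 := by
    intro h
    have h1 : ρ ^ 3 = 0 := by linear_combination (ρ ^ 2 + 1) * h - h6
    exact pow_ne_zero 3 hρ h1
  have e1 : 1 + ρ ^ 3 - ρ * (1 + ρ) ≠ 0 := by
    intro h
    exact mul_ne_zero (mul_ne_zero q1 q1) q2 (by linear_combination h)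
  have e3 : 1 + ρ ^ 5 - ρ * (1 + ρ ^ 3) ≠ 0 := by
    intro h
    exact mul_ne_zero q1 q4 (by linear_combination h)
  have t1 := two (p := ρ) hn hR hb1 hb2 hb3 hS ((hS ρ).2 (by simp)) hn (by
    intro k hk h
    interval_cases k
    · exact m1 (by linear_combination h)
    · exact pow_ne_zero 2 hρ (by linear_combination h)
    · exact mul_ne_zero (pow_ne_zero 2 hρ) m1 (by linear_combination h)
    · exact mul_ne_zero (pow_ne_zero 2 hρ) m2 (by linear_combination h))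
  have t2 := two (p := ρ ^ 2) hn hR hb1 hb2 hb3 hS ((hS (ρ ^ 2)).2 (by simp)) (hu 2) (by
    intro k hk h
    interval_cases k
    · exact m2 (by linear_combination h)
    · exact mul_ne_zero (pow_ne_zero 2 hρ) m1 (by linear_combination h)
    · exact pow_ne_zero 4 hρ (by linear_combination h)
    · exact mul_ne_zero (pow_ne_zero 4 hρ) m1 (by linear_combination h))
  have T1 : (b1 * (1 + ρ) = ρ ∧ b2 * (1 + ρ) = ρ ^ 2) ∨
      (b1 * (1 + ρ) = ρ ∧ b3 * (1 + ρ ^ 3) = ρ ^ 4) ∨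
      (b2 * (1 + ρ) = ρ ^ 2 ∧ b3 * (1 + ρ ^ 3) = ρ ^ 4) := by
    have a1 : b1 * (ρ + ρ ^ 2) = ρ * ρ → b1 * (1 + ρ) = ρ := fun h =>
      mul_left_cancel₀ hρ (by linear_combination h)
    have a2 : b2 * (ρ ^ 3 + ρ ^ 2) = ρ ^ 3 * ρ → b2 * (1 + ρ) = ρ ^ 2 := fun h =>
      mul_left_cancel₀ (pow_ne_zero 2 hρ) (by linear_combination h)
    have a3 : b3 * (ρ ^ 5 + ρ ^ 2) = ρ ^ 5 * ρ → b3 * (1 + ρ ^ 3) = ρ ^ 4 := fun h =>
      mul_left_cancel₀ (pow_ne_zero 2 hρ) (by linear_combination h)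
    rcases t1 with ⟨h, h'⟩ | ⟨h, h'⟩ | ⟨h, h'⟩
    · exact Or.inl ⟨a1 h, a2 h'⟩
    · exact Or.inr (Or.inl ⟨a1 h, a3 h'⟩)
    · exact Or.inr (Or.inr ⟨a2 h, a3 h'⟩)
  have T2 : (b1 * (1 + ρ ^ 3) = ρ ^ 2 ∧ b2 * (1 + ρ) = ρ ^ 2) ∨
      (b1 * (1 + ρ ^ 3) = ρ ^ 2 ∧ b3 * (1 + ρ) = ρ ^ 3) ∨
      (b2 * (1 + ρ) = ρ ^ 2 ∧ b3 * (1 + ρ) = ρ ^ 3) := by
    have a1 : b1 * (ρ + (ρ ^ 2) ^ 2) = ρ * ρ ^ 2 → b1 * (1 + ρ ^ 3) = ρ ^ 2 := fun h =>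
      mul_left_cancel₀ hρ (by linear_combination h)
    have a2 : b2 * (ρ ^ 3 + (ρ ^ 2) ^ 2) = ρ ^ 3 * ρ ^ 2 → b2 * (1 + ρ) = ρ ^ 2 := fun h =>
      mul_left_cancel₀ (pow_ne_zero 3 hρ) (by linear_combination h)
    have a3 : b3 * (ρ ^ 5 + (ρ ^ 2) ^ 2) = ρ ^ 5 * ρ ^ 2 → b3 * (1 + ρ) = ρ ^ 3 := fun h =>
      mul_left_cancel₀ (pow_ne_zero 4 hρ) (by linear_combination h)
    rcases t2 with ⟨h, h'⟩ | ⟨h, h'⟩ | ⟨h, h'⟩
    · exact Or.inl ⟨a1 h, a2 h'⟩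
    · exact Or.inr (Or.inl ⟨a1 h, a3 h'⟩)
    · exact Or.inr (Or.inr ⟨a2 h, a3 h'⟩)
  -- incompatible formulas
  have x12 : b1 * (1 + ρ) = ρ → b1 * (1 + ρ ^ 3) = ρ ^ 2 → False := fun h h' =>
    mul_ne_zero hz1 e1 (by linear_combination h' - ρ * h)
  have y12 : b2 * (1 + ρ) = ρ ^ 2 → b2 * (1 + ρ ^ 3) = ρ ^ 3 → False := fun h h' =>
    mul_ne_zero hz2 e1 (by linear_combination h' - ρ * h)
  have z12 : b3 * (1 + ρ) = ρ ^ 3 → b3 * (1 + ρ ^ 3) = ρ ^ 4 → False := fun h h' =>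
    mul_ne_zero hz3 e1 (by linear_combination h' - ρ * h)
  have z23 : b3 * (1 + ρ ^ 3) = ρ ^ 4 → b3 * (1 + ρ ^ 5) = ρ ^ 5 → False := fun h h' =>
    mul_ne_zero hz3 e3 (by linear_combination h' - ρ * h)
  have C : (b1 * (1 + ρ) = ρ ∧ b2 * (1 + ρ) = ρ ^ 2 ∧ b3 * (1 + ρ) = ρ ^ 3) ∨
      (b1 * (1 + ρ ^ 3) = ρ ^ 2 ∧ b2 * (1 + ρ) = ρ ^ 2 ∧ b3 * (1 + ρ ^ 3) = ρ ^ 4) := by
    rcases T1 with ⟨h, h'⟩ | ⟨h, h'⟩ | ⟨h, h'⟩
    · rcases T2 with ⟨k, k'⟩ | ⟨k, k'⟩ | ⟨k, k'⟩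
      · exact (x12 h k).elim
      · exact (x12 h k).elim
      · exact Or.inl ⟨h, h', k'⟩
    · rcases T2 with ⟨k, k'⟩ | ⟨k, k'⟩ | ⟨k, k'⟩
      · exact (x12 h k).elim
      · exact (x12 h k).elim
      · exact (z12 k' h').elim
    · rcases T2 with ⟨k, k'⟩ | ⟨k, k'⟩ | ⟨k, k'⟩
      · exact Or.inr ⟨k, h, h'⟩
      · exact (z12 k' h').elim
      · exact (z12 k' h').elim
  rcases C with ⟨c1, c2, c3⟩ | ⟨c1, c2, c3⟩
  · -- the bisector of 0 and b1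
    have hm : b1 ∈ S := (hS b1).2 (by simp)
    obtain ⟨s, hs, t, ht, hst, ds, dt⟩ := pair hR h0 hm hz1
    have hcb : conj b1 ≠ 0 := by
      intro h
      rw [h, mul_zero] at hb1
      exact hz1 hb1
    have E0 := bisg ds
    have E : (s + ρ * conj s) * (1 + ρ) = ρ := by
      have h1 : (s + ρ * conj s) * conj b1 = b1 * conj b1 := by
        linear_combination E0 - conj s * hb1
      have h2 : s + ρ * conj s = b1 := mul_right_cancel₀ hcb h1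
      rw [h2]
      exact c1
    have hpw : ∀ k : ℕ, s = ρ ^ k → (ρ ^ (2 * k) + ρ) * (1 + ρ) = ρ ^ k * ρ := by
      intro k hk
      have h1 := unit_cc (hu k)
      rw [hk] at E
      linear_combination ρ ^ k * E - ρ * (1 + ρ) * h1
    rcases (hS s).1 hs with h | h | h | h | h | h | h | h
    · rw [h, map_zero] at E
      exact hρ (by linear_combination -E)
    · have g := hpw 0 (by rw [h, pow_zero])
      exact n3 (by linear_combination (ρ - 1) * g)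
    · have g := hpw 1 (by rw [h, pow_one])
      have g2 : ρ * (ρ ^ 2 + ρ + 1) = 0 := by linear_combination g
      rcases mul_eq_zero.1 g2 with g3 | g3
      · exact hρ g3
      · exact n3 (by linear_combination (ρ - 1) * g3)
    · have g := hpw 2 h
      have g2 : ρ * (ρ ^ 4 + ρ ^ 3 - ρ ^ 2 + ρ + 1) = 0 := by linear_combination g
      rcases mul_eq_zero.1 g2 with g3 | g3
      · exact hρ g3
      · have h1 : (17 : ℂ) = 0 := by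
          linear_combination (5 - 2 * ρ + 4 * ρ ^ 2 - 4 * ρ ^ 3 + 2 * ρ ^ 4 - 5 * ρ ^ 5) * g3 +
            (12 - 3 * ρ + 3 * ρ ^ 2 + 5 * ρ ^ 3) * h6
        norm_num at h1
    · have g := hpw 3 h
      have g2 : ρ ^ 2 * (ρ ^ 4 + 1) = 0 := by
        linear_combination g - ρ * h6
      exact mul_ne_zero (pow_ne_zero 2 hρ) q4' g2
    · rw [h] at E
      exact mul_ne_zero hz1 q2 (by linear_combination E + (1 + ρ) * hb1 - c1)
    · rw [h] at E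
      have g : ρ ^ 2 * (ρ ^ 2 + 1 - ρ) = 0 := by
        linear_combination ρ ^ 2 * E + (1 + ρ) * hb2 - (ρ ^ 2 + 1) * c2
      exact mul_ne_zero (pow_ne_zero 2 hρ) m1 g
    · rw [h] at E
      have g : ρ ^ 3 * (ρ ^ 4 + 1 - ρ ^ 2) = 0 := by
        linear_combination ρ ^ 4 * E + (1 + ρ) * hb3 - (ρ ^ 4 + 1) * c3
      exact mul_ne_zero (pow_ne_zero 3 hρ) m2 g
  · -- the bisector of 0 and 1
    have hm : (1 : ℂ) ∈ S := (hS 1).2 (by simp)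
    obtain ⟨s, hs, t, ht, hst, ds, dt⟩ := pair hR h0 hm one_ne_zero
    have key : ∀ s ∈ S, dist s 0 = dist s 1 → s = ρ ^ 3 := by
      intro s hs ds
      rcases cls hn hb1 hb2 hb3 hS norm_one hs ds with ⟨k, hk3, e, h⟩ | ⟨e, h⟩ | ⟨e, h⟩ | ⟨e, h⟩
      · interval_cases k
        · norm_num at h
        · exact (m1 (by linear_combination h)).elim
        · exact (m2 (by linear_combination h)).elim
        · exact e
      · exact (x12 (by linear_combination h) c1).elim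
      · exact (y12 c2 (by linear_combination h)).elim
      · exact (z23 c3 (by linear_combination h)).elim
    exact hst ((key s hs ds).trans (key t ht dt).symm)

end Pool.Agent.Helper75.BR
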